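import Pool.Agent.V11325.PercMain

/-!
# MP_6e7106_pr: large-diameter clusters do not force a giant component

Bond percolation on a finite graph `G` of type `SimpleGraph V`: the sample space is
`G.edgeSet → Bool`, `true` means that the edge is kept, and `bondLaw G p` makes the edges
independent, each kept with probability `p`.
-/

namespace Pool.Agent.Results.MP_6e7106_pr.ThinTori

open MeasureTheory Filter Topology
open Pool.Agent.V11325.Perc

/-- the law `p δ_true + (1 - p) δ_false` on `Bool` -/
noncomputable def coin (p : ℝ) : Measure Bool :=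
  ENNReal.ofReal p • Measure.dirac true + ENNReal.ofReal (1 - p) • Measure.dirac false

/-- Bernoulli bond percolation on `G` with parameter `p` -/
noncomputable def bondLaw {V : Type} (G : SimpleGraph V) (p : ℝ) : Measure (G.edgeSet → Bool) :=
  Measure.infinitePi fun _ : G.edgeSet => coin p

/-- the graph of kept edges, on the same vertex set -/
def keptGraph {V : Type} (G : SimpleGraph V) (ω : G.edgeSet → Bool) : SimpleGraph V where
  Adj x y := ∃ h : G.Adj x y, ω ⟨s(x, y), h⟩ = true
  symm := (kept G ω).symm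
  loopless := (kept G ω).loopless

/-- the component of `v` has diameter, in the metric of `G`, at least `diam G / 2` -/
def LargeDiam {V : Type} (G : SimpleGraph V) (ω : G.edgeSet → Bool) (v : V) : Prop :=
  ∃ x y, (keptGraph G ω).Reachable v x ∧ (keptGraph G ω).Reachable v y ∧
    G.diam ≤ 2 * G.dist x y

/-- some component has at least `C |V|` vertices -/
def HasGiant {V : Type} [Fintype V] (G : SimpleGraph V) (C : ℝ) (ω : G.edgeSet → Bool) : Prop :=
  ∃ c : (keptGraph G ω).ConnectedComponent, C * Fintype.card V ≤ (c.supp.ncard : ℝ)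

/-- the long side of the torus -/
noncomputable def mm (n : ℕ) : ℕ := 3 * (Lk (n + 3) + 1)

instance (n : ℕ) : NeZero (mm n) := ⟨by unfold mm; omega⟩

theorem two_pow_bound {k : ℕ} (hk : 3 ≤ k) : ((2 ^ k : ℕ) : ℝ) ≤ 10 ^ k / 8 := by
  push_cast
  have h4 : (10 : ℝ) ^ k = 5 ^ k * 2 ^ k := by
    rw [← mul_pow]
    norm_num
  have h5 : (5 : ℝ) ^ 3 ≤ 5 ^ k := pow_le_pow_right₀ (by norm_num) hk
  have h6 : (0 : ℝ) < 2 ^ k := by positivity
  rw [h4]
  nlinarith

theorem k_bound {k : ℕ} (hk : 3 ≤ k) : ((k + 3 : ℕ) : ℝ) ≤ 10 ^ k / 8 := by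
  have h4 : (10 : ℝ) ^ k = 5 ^ k * 2 ^ k := by
    rw [← mul_pow]
    norm_num
  have h5 : (5 : ℝ) ^ 3 ≤ 5 ^ k := pow_le_pow_right₀ (by norm_num) hk
  have h6 : ((k : ℕ) : ℝ) < 2 ^ k := by exact_mod_cast Nat.lt_two_pow_self
  have h7 : (3 : ℝ) ≤ k := by exact_mod_cast hk
  rw [h4]
  push_cast
  nlinarith

/-- **Disproof of Q1.** There are a sequence of connected `4`-regular transitive graphs `G_n`
whose orders tend to infinity, a `δ > 0` and a `p` in `[0, 1]` such that at this `p` every vertex
of every `G_n` lies with probability more than `δ` in a component of diameter at least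
`diam (G_n) / 2` (in the metric of `G_n`), but for every `C > 0` the probability that some
component has at least `C |V_n|` vertices does not tend to `1`. -/
theorem result :
    ∃ (d : ℕ) (V : ℕ → Type) (_ : ∀ n, Fintype (V n)) (G : ∀ n, SimpleGraph (V n)),
      (∀ n, (G n).Connected) ∧
      (∀ n x, ((G n).neighborSet x).ncard = d) ∧
      (∀ n x y, ∃ φ : G n ≃g G n, φ x = y) ∧
      Tendsto (fun n => Fintype.card (V n)) atTop atTop ∧
      ∃ δ : ℝ, 0 < δ ∧ ∃ p : ℝ, (0 ≤ p ∧ p ≤ 1) ∧
        (∀ n (v : V n), δ < (bondLaw (G n) p).real {ω | LargeDiam (G n) ω v}) ∧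
        ∀ C : ℝ, 0 < C →
          ¬ Tendsto (fun n => (bondLaw (G n) p).real {ω | HasGiant (G n) C ω}) atTop (𝓝 1) := by
  have hm : ∀ n, 3 ≤ mm n := fun n => by unfold mm; omega
  have hk : ∀ n : ℕ, 3 ≤ n + 3 := fun n => by omega
  refine ⟨4, fun n => ZMod (mm n) × ZMod (n + 3), fun n => inferInstance,
    fun n => torus (mm n) (n + 3), fun n => torus_connected (hm n) (hk n),
    fun n => torus_degree (hm n) (hk n), fun n => torus_trans, ?_, 1 / 8, by norm_num, p0, hp0,
    ?_, ?_⟩
  · refine tendsto_atTop_mono (fun n => ?_) tendsto_id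
    rw [Fintype.card_prod, ZMod.card, ZMod.card]
    have h1 : 1 * (n + 3) ≤ mm n * (n + 3) := Nat.mul_le_mul_right _ (by have := hm n; omega)
    simp only [id]
    omega
  · intro n v
    have h1 := Hk_Lk (k := n + 3) (two_pow_bound (hk n))
    have h2 := Lk_large (k := n + 3) (k_bound (hk n))
    have h3 := large (m := mm n) (k := n + 3) (hm n) (hk n) (L := Lk (n + 3))
      (by unfold mm; omega) (by unfold mm; omega) v
    have h4 : (3 : ℝ) / 16 ≤ (bondLaw (torus (mm n) (n + 3)) p0).real
        {ω | LargeDiam (torus (mm n) (n + 3)) ω v} := h1.trans h3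
    have h5 : (1 : ℝ) / 8 < 3 / 16 := by norm_num
    exact lt_of_lt_of_le h5 h4
  · intro C hC hT
    obtain ⟨r, hr⟩ := exists_nat_gt (4 / C)
    have hr0 : 0 < 4 / C := by positivity
    have hrpos : (0 : ℝ) < r := hr0.trans hr
    have hr1 : 1 ≤ r := by
      have : 0 < r := by exact_mod_cast hrpos
      omega
    have hr1' : (1 : ℝ) ≤ r := by exact_mod_cast hr1
    set q : ℝ := 1 / (6 * r + 3) with hq
    have hq0 : 0 < q := by positivity
    have hq1 : q ≤ 1 := by
      rw [hq, div_le_one (by positivity)]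
      linarith
    have hbig := big_k r hr1
    have hbig' := (tendsto_add_atTop_nat 3).eventually hbig
    have hkey : ∀ᶠ n : ℕ in atTop, (bondLaw (torus (mm n) (n + 3)) p0).real
        {ω | HasGiant (torus (mm n) (n + 3)) C ω} ≤ 1 - q ^ (3 * r) := by
      filter_upwards [hbig'] with n hn
      obtain ⟨b1, b2⟩ := hn inferInstance
      set L := Lk (n + 3) with hL
      set l := (L + 1) / r with hl
      have hmm : mm n = 3 * (L + 1) := rfl
      have hrL : r ≤ L + 1 := by
        have h1 : 2 * r * 1 ≤ 2 * r * (1 + 2 ^ (n + 3)) :=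
          Nat.mul_le_mul_left _ (Nat.le_add_right 1 _)
        rw [mul_one] at h1
        have h2 : 2 * r ≤ L := h1.trans b1
        omega
      have hlL : l ≤ L + 1 := Nat.div_le_self _ _
      have hlm : l + 1 ≤ mm n := by omega
      have hun := uncrossed (k := n + 3) hr1 b1 b2
      have hlr : l * r ≤ L + 1 := Nat.div_mul_le_self _ _
      have hCl : ((6 * (l + 1) * (n + 3) : ℕ) : ℝ) <
          C * Fintype.card (ZMod (mm n) × ZMod (n + 3)) := by
        rw [Fintype.card_prod, ZMod.card, ZMod.card, hmm]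
        have h1 : ((l : ℝ) + 1) * r ≤ 2 * (L + 1) := by
          have h2 : (l : ℝ) * r ≤ L + 1 := by exact_mod_cast hlr
          have h3 : (r : ℝ) ≤ L + 1 := by exact_mod_cast hrL
          linarith
        have h4 : 4 < C * r := by
          rw [div_lt_iff₀ hC] at hr
          linarith
        have hLpos : (0 : ℝ) < (L : ℝ) + 1 := by positivity
        have h5 : 6 * ((l : ℝ) + 1) < C * (3 * (L + 1)) := by
          have h6 : 6 * (((l : ℝ) + 1) * r) < C * (3 * (L + 1)) * r := by nlinarith
          have h7 : 6 * ((l : ℝ) + 1) * r < C * (3 * (L + 1)) * r := by linarith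
          exact lt_of_mul_lt_mul_right h7 hrpos.le
        push_cast
        have h8 : (0 : ℝ) < (n : ℝ) + 3 := by positivity
        nlinarith
      have h1 := no_giant (m := mm n) (k := n + 3) (hm n) (hk n) hlm hq0.le hun hCl
      have hS : mm n / (l + 1) ≤ 3 * r := by
        apply Nat.div_le_of_le_mul
        have h2 : L + 1 < l * r + r := Nat.lt_div_mul_add (by omega)
        rw [hmm]
        nlinarith
      have h2 : q ^ (3 * r) ≤ q ^ (mm n / (l + 1)) := pow_le_pow_of_le_one hq0.le hq1 hS
      have h3 : (bondLaw (torus (mm n) (n + 3)) p0).real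
        {ω | HasGiant (torus (mm n) (n + 3)) C ω} ≤ 1 - q ^ (mm n / (l + 1)) := h1
      linarith
    have h1 := le_of_tendsto hT hkey
    have h2 : 0 < q ^ (3 * r) := pow_pos hq0 _
    linarith

end Pool.Agent.Results.MP_6e7106_pr.ThinTori
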